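import Pool.Agent.Lib.MP_c7af3c_ag.MET.Base
import Pool.Agent.Lib.MP_c7af3c_ag.GEN.H12.Restr

/-! Restriction of the derivations (after GEN.H12.Restr). -/

set_option autoImplicit false

namespace Pool.Agent.Met

open MvPolynomial Pool.Agent.Gen Pool.Agent.Gen.H12

theorem restr : RestrS := by
  intro C Ω ι _ _ _ A G hG
  have hdel : ∀ s, ∀ x ∈ IntermediateField.adjoin A.KK G,
      A.D.del s x ∈ IntermediateField.adjoin A.KK G := by
    intro s x hx
    induction hx using IntermediateField.adjoin_induction with
    | mem g hg => rw [A.del_EE s g (hG g hg)]; exact zero_mem _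
    | algebraMap a =>
      exact (IntermediateField.adjoin A.KK G).algebraMap_mem ⟨_, A.del_KK s a a.2⟩
    | add x y _ _ hx hy => rw [map_add]; exact add_mem hx hy
    | inv x hx hx' =>
      rw [Derivation.leibniz_inv, smul_eq_mul]
      exact mul_mem (neg_mem (pow_mem (inv_mem hx) 2)) hx'
    | mul x y hx hy hx' hy' =>
      rw [Derivation.leibniz, smul_eq_mul, smul_eq_mul]
      exact add_mem (mul_mem hx hy') (mul_mem hy hx')
  have hco : ∀ s, A.D.a s ∈ IntermediateField.adjoin A.KK G := fun s =>
    (IntermediateField.adjoin A.KK G).algebraMap_mem ⟨_, A.a_mem s⟩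
  exact ⟨{ a := fun s => ⟨A.D.a s, hco s⟩
           del := fun s => restrDer (IntermediateField.adjoin A.KK G) (A.D.del s) (hdel s)
           one := fun s => Subtype.ext (A.D.one s)
           zero := fun s t h => Subtype.ext (A.D.zero s t h) }, fun s => rfl, fun s f => rfl⟩

end Pool.Agent.Met
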