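import Pool.Agent.Lib.MP_c7af3c_ag.MET.Base
import Pool.Agent.Lib.MP_c7af3c_ag.GEN.H26.Rigid

/-! Rigidity (after GEN.H26.Rigid). -/

set_option autoImplicit false

namespace Pool.Agent.Met

open MvPolynomial WithZero IsDedekindDomain IntermediateField Pool.Agent.Gen Pool.Agent.Gen.H26

theorem rigid (hProd : ProdStatement) (hPlace : PlaceStatement)
    (hAlgc : AlgcStatement) (hDerz : DerzStatement) (hSeid : SeidStatement)
    (hRes : ResStatement) (hRigff : RigffStatement) (hRestr : RestrS) :
    RigidS := by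
  intro R C Ω _ _ _ _ _ _ ι J E hHB φ A ε hεE hεt S hSf hS z hzE hzL
  obtain ⟨AA, hAA⟩ := hHB
  set G : Set Ω := insert ε S with hG
  have hεG : ε ∈ IntermediateField.adjoin A.KK G :=
    IntermediateField.subset_adjoin _ _ (Set.mem_insert _ _)
  set τ : IntermediateField.adjoin A.KK G := ⟨ε, hεG⟩ with hτ
  have h : FF A.KK (IntermediateField.adjoin A.KK G) τ :=
    hRigff C Ω A.KK A.EE A.ld ε hεE hεt S hSf hS
  have hε0 : ε ≠ 0 := fun h0 => hεt (h0 ▸ isAlgebraic_zero)
  obtain ⟨D', hD'a, hD'd⟩ := hRestr C Ω ι A G (by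
    intro g hg
    rcases Set.mem_insert_iff.1 hg with rfl | hg
    · exact hεE
    · exact (hS g hg).1)
  have hinj : Function.Injective (algebraMap (IntermediateField.adjoin A.KK G) Ω) :=
    fun a b h => Subtype.ext h
  -- properties of the derivations
  have hδ : ∀ s, ∀ a : A.KK, ∃ b : A.KK,
      D'.del s (algebraMap A.KK (IntermediateField.adjoin A.KK G) a) =
        algebraMap A.KK (IntermediateField.adjoin A.KK G) b := by
    intro s a
    refine ⟨⟨A.D.del s a, A.del_KK s a a.2⟩, ?_⟩
    apply Subtype.ext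
    rw [hD'd s]
    rfl
  have hδE : ∀ s, ∀ g : IntermediateField.adjoin A.KK G, (g : Ω) ∈ A.EE →
      D'.del s g = 0 := by
    intro s g hg
    apply Subtype.ext
    rw [hD'd s, A.del_EE s _ hg]
    rfl
  -- generation
  have hgen : IntermediateField.adjoin A.KK
      (insert τ {l : IntermediateField.adjoin A.KK G | (l : Ω) ∈ S}) = ⊤ := by
    apply IntermediateField.lift_injective
    rw [IntermediateField.lift_adjoin, IntermediateField.lift_top]
    congr 1
    ext z
    simp only [Set.mem_image, Set.mem_insert_iff, hG]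
    constructor
    · rintro ⟨l, hl | hl, rfl⟩
      · left; rw [hl]
      · right; exact hl
    · rintro (hz | hz)
      · exact ⟨τ, Or.inl rfl, hz.symm⟩
      · exact ⟨⟨z, IntermediateField.subset_adjoin _ _ (Set.mem_insert_of_mem _ hz)⟩,
          Or.inr hz, rfl⟩
  have hgen' : IntermediateField.adjoin A.KK
      (insert τ⁻¹ {l : IntermediateField.adjoin A.KK G | (l : Ω) ∈ S}) = ⊤ := by
    rw [eq_top_iff, ← hgen, IntermediateField.adjoin_le_iff]
    intro l hl
    rcases Set.mem_insert_iff.1 hl with rfl | hl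
    · have := inv_mem (IntermediateField.subset_adjoin A.KK
        (insert τ⁻¹ {l : IntermediateField.adjoin A.KK G | (l : Ω) ∈ S}) (Set.mem_insert _ _))
      rwa [inv_inv] at this
    · exact IntermediateField.subset_adjoin _ _ (Set.mem_insert_of_mem _ hl)
  have hS' : ∀ s ∈ S, s ∈ A.EE ∧
      IsAlgebraic (IntermediateField.adjoin C {((τ⁻¹ : IntermediateField.adjoin A.KK G) : Ω)})
        s := by
    have e : IntermediateField.adjoin C {((τ⁻¹ : IntermediateField.adjoin A.KK G) : Ω)} =
        IntermediateField.adjoin C {ε} := by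
      have e0 : ((τ⁻¹ : IntermediateField.adjoin A.KK G) : Ω) = ε⁻¹ := rfl
      rw [e0]
      apply le_antisymm
      · rw [IntermediateField.adjoin_simple_le_iff]
        exact inv_mem (IntermediateField.mem_adjoin_simple_self C ε)
      · rw [IntermediateField.adjoin_simple_le_iff]
        have := inv_mem (IntermediateField.mem_adjoin_simple_self C ε⁻¹)
        rwa [inv_inv] at this
    rw [e]
    exact hS
  -- bounds at all places
  have hder : ∀ p s, ∀ f, (ffPlaces h).v p f ≤ 1 →
      (ffPlaces h).v p (D'.del s f) ≤ exp ((0 : ℕ) : ℤ) := by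
    intro p s f hf
    have h1 := hDerz A.KK _ τ h (D'.del s)
      (seid_app A.KK A.EE G hSeid τ h hεE S hS hgen (D'.del s) (hδ s) (hδE s))
      (seid_app A.KK A.EE G hSeid τ⁻¹ h.inv (inv_mem hεE) S hS' hgen' (D'.del s) (hδ s)
        (hδE s)) p f hf
    simpa using h1
  have hcoef : ∀ p s, (ffPlaces h).v p (D'.a s) ≤ exp ((0 : ℕ) : ℤ) := by
    intro p s
    have h1 : ((D'.a s : IntermediateField.adjoin A.KK G) : Ω) ∈ A.KK := by
      rw [hD'a]
      exact A.a_mem s
    have h3 : D'.a s = algebraMap A.KK (IntermediateField.adjoin A.KK G) ⟨_, h1⟩ :=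
      Subtype.ext rfl
    rw [h3]
    simpa using (hPlace A.KK _ τ h).const p ⟨_, h1⟩
  -- the point
  set z' : J → IntermediateField.adjoin A.KK G := fun j => ⟨z j, hzL j⟩ with hz'
  set φ' : R →+* IntermediateField.adjoin A.KK G :=
    (algebraMap A.KK (IntermediateField.adjoin A.KK G)).comp ((algebraMap C A.KK).comp φ) with hφ'
  have hz'E : Sol E φ' D'.a z' := by
    intro P hP
    apply hinj
    rw [map_zero, ← hzE P hP, MvPolynomial.eval₂_comp_left]
    have e1 : (algebraMap (IntermediateField.adjoin A.KK G) Ω ∘ (Sum.elim D'.a z' : ι ⊕ J → _)) =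
        Sum.elim A.D.a z := by
      funext i
      cases i with
      | inl s => exact hD'a s
      | inr j => rfl
    have e2 : (algebraMap (IntermediateField.adjoin A.KK G) Ω).comp φ' =
        (algebraMap C Ω).comp φ := RingHom.ext fun r => rfl
    rw [e1, e2]
  have hcL : CharZero (IntermediateField.adjoin A.KK G) :=
    charZero_of_injective_algebraMap (algebraMap C _).injective
  intro j
  have hht := hAA _ φ' D' (fun s r => hδE s _ (A.EE.algebraMap_mem (φ r))) z' hz'E (ffPlaces h)
    (hProd _ _ τ h) (fun p r => (hPlace A.KK _ τ h).const p _) (fun _ => 0)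
    ⟨by simp, hder, hcoef⟩ j
  simp only [Nat.cast_zero, mul_zero, finsum_zero] at hht
  have hv : ∀ p, 0 < (ffPlaces h).w p → (ffPlaces h).v p (z' j) ≤ 1 := by
    intro p hp
    have := (ffPlaces h).v_le_of_ht_le (n := 1) ![1, z' j] (hProd _ _ τ h).fin (j0 := 0) rfl hht
      p hp 1
    simpa using this
  have halg : IsAlgebraic A.KK (z' j) := hAlgc _ _ τ h _ hv
  have halg' : IsAlgebraic A.KK (z j) := by
    have := halg.algebraMap (A := Ω)
    exact this
  refine hRes C Ω A.KK A.EE A.ld (z j) ?_ halg'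
  -- membership
  have hle : ∀ y ∈ IntermediateField.adjoin A.KK G, y ∈ A.KK ⊔ A.EE := by
    have h1 : IntermediateField.adjoin A.KK G ≤
        IntermediateField.extendScalars (le_sup_left : A.KK ≤ A.KK ⊔ A.EE) := by
      rw [IntermediateField.adjoin_le_iff]
      intro g hg
      change g ∈ A.KK ⊔ A.EE
      apply (le_sup_right : A.EE ≤ A.KK ⊔ A.EE)
      rcases Set.mem_insert_iff.1 hg with rfl | hg
      · exact hεE
      · exact (hS g hg).1
    exact fun y hy => h1 hy
  exact hle _ (hzL j)

end Pool.Agent.Met
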