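import Pool.Agent.Lib.MP_c7af3c_ag.MET.Base

/-! The transfer theorem (after GEN.H52.Thm1 and GEN.H38.Thml). -/

set_option autoImplicit false

namespace Pool.Agent.Met

open MvPolynomial WithZero Pool.Agent.Gen

theorem thm1 (hDeriv : DerivStatement) (hDir : DirStatement) (hHeight : HeightS)
    (hCoef : CoefStatement) (hUltra : UltraS) (hChain : ChainS) :
    Thm1S := by
  intro R k0 K _ _ _ _ _ _ hFG ι J _ _ E φ a hindep hHB
  by_contra hinf
  rw [← Set.Infinite] at hinf
  have := Fintype.ofFinite J
  obtain ⟨N, T, e, he, hTe⟩ := hDeriv k0 K hFG ι a hindep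
  -- the derivations
  let D : DD ι K :=
    { a := a
      del := fun s => (T.del (e s)).restrictScalars ℤ
      one := by
        intro s
        change T.del (e s) (a s) = 1
        rw [← hTe, T.dual, if_pos rfl]
      zero := by
        intro s t h
        change T.del (e s) (a t) = 0
        rw [← hTe, T.dual, if_neg fun h' => h (he h')] }
  have hdel : ∀ s, ∃ j, ∀ f, D.del s f = T.del j f := fun s => ⟨e s, fun f => rfl⟩
  have hdir : ∀ i, FF (dirκ (k0 := k0) T.t i) K (T.t i) := fun i => (hDir k0 K N T i).1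
  have hH := hHeight R k0 K N T hdir ι J E φ D hdel hHB
  choose C hC using hH
  obtain ⟨r, θ, B, hB⟩ := hCoef k0 K N T hdir C
  let ψ := hinf.natEmbedding
  let z : ℕ → J → K := fun ν => (ψ ν : J → K)
  have hzinj : Function.Injective z := fun a b hab => ψ.injective (Subtype.ext hab)
  have hz0 : ∀ ν, Sol E ((algebraMap k0 K).comp φ) D.a (z ν) := fun ν => (ψ ν).2
  obtain ⟨Ω, _, _, A, y, hA, hy0, hyKE, hnot⟩ := hUltra R k0 K ι J E φ D
    (fun s a => (T.del (e s)).map_algebraMap a)
    N r B T.t θ z hzinj hz0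
    (fun ν j => hB 1 ![1, z ν j] 0 rfl (fun i => hC i (z ν) (hz0 ν) j) 1)
  exact hnot (hChain R k0 Ω ι J E hHB φ A hA y hy0 hyKE)

theorem thm2 (hT : Thm1S) : Thm2S := by
  intro R k0 k _ _ _ _ _ _ ι J _ _ E φ a hind hHB S hS
  -- the field generated by `S` and the parameters
  let T : Set k := S ∪ Set.range a
  have hTf : T.Finite := hS.union (Set.finite_range a)
  let K : IntermediateField k0 k := IntermediateField.adjoin k0 T
  have hTK : T ⊆ K := IntermediateField.subset_adjoin k0 T
  have hKfg : (⊤ : IntermediateField k0 K).FG := by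
    rw [IntermediateField.fg_top_iff, IntermediateField.essFiniteType_iff]
    exact IntermediateField.fg_adjoin_of_finite hTf
  let b : ι → K := fun s => ⟨a s, hTK (Or.inr ⟨s, rfl⟩)⟩
  have hinj : Function.Injective (algebraMap K k) := (algebraMap K k).injective
  have hbind : AlgebraicIndependent k0 b := by
    have h1 : a = (K.val : K → k) ∘ b := rfl
    rw [h1] at hind
    exact hind.of_comp K.val
  have hfin := hT R k0 K hKfg ι J E φ b hbind hHB
  refine (hfin.image fun x => fun j => (x j : k)).subset ?_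
  rintro x ⟨hx2, hx3⟩
  have hxK : ∀ j, x j ∈ K := by
    intro j
    have h1 : IntermediateField.adjoin k0 S ≤ K :=
      IntermediateField.adjoin.mono _ _ _ Set.subset_union_left
    exact h1 (hx2 j)
  refine ⟨fun j => ⟨x j, hxK j⟩, fun P hP => ?_, rfl⟩
  apply hinj
  rw [map_zero, ← hx3 P hP, MvPolynomial.eval₂_comp_left]
  have e1 : (algebraMap K k ∘ (Sum.elim b (fun j => ⟨x j, hxK j⟩) : ι ⊕ J → K)) =
      Sum.elim a x := by
    funext i
    cases i with
    | inl s => rfl
    | inr j => rfl
  have e2 : (algebraMap K k).comp ((algebraMap k0 K).comp φ) = (algebraMap k0 k).comp φ :=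
    RingHom.ext fun r => rfl
  rw [e1, e2]

theorem thml (hT : Thm2S) : ThmlS := by
  intro k _ _ _ ι J _ _ E a hind hHB S hS
  -- the algebraic closure of the rationals
  let k0 := algebraicClosure ℚ k
  have hk1 := algebraicClosure.isAlgClosure ℚ k
  have hk0 : IsAlgClosed k0 := hk1.isAlgClosed
  have hk0c : CharZero k0 := charZero_of_injective_algebraMap (algebraMap ℚ k0).injective
  have hind0 : AlgebraicIndependent k0 a :=  by
    have := IsLocalization.isAlgebraic ℚ (nonZeroDivisors ℤ)
    exact (hind.extendScalars ℚ).algebraicClosure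
  refine (hT ℤ k0 k ι J E (Int.castRingHom k0) a hind0 hHB S hS).subset ?_
  rintro z ⟨h1, h2⟩
  refine ⟨fun j => ?_, ?_⟩
  · have h3 : Subfield.closure S ≤ (IntermediateField.adjoin k0 S).toSubfield :=
      (Subfield.closure_le).mpr (IntermediateField.subset_adjoin k0 S)
    exact h3 (h1 j)
  · have e : (algebraMap k0 k).comp (Int.castRingHom k0) = Int.castRingHom k := RingHom.ext_int _ _
    rw [e]
    exact h2

end Pool.Agent.Met
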