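import Pool.Agent.Lib.MP_c7af3c_ag.MET.Base
import Pool.Agent.Lib.MP_c7af3c_ag.GEN.H81.Ultra

/-! The ultrapower point (after GEN.H81.Ultra). -/

set_option autoImplicit false

namespace Pool.Agent.Met

open Filter MvPolynomial Pool.Agent.Gen Pool.Agent.Gen.H81

section
variable {k0 K : Type} [Field k0] [Field K] [Algebra k0 K]

/-- evaluation in the ultrapower -/
theorem eval_om {R σ : Type} [CommRing R] (φ : R →+* k0) (u : σ → ℕ → K)
    (P : MvPolynomial σ R) :
    eval₂ ((algebraMap k0 (Om K)).comp φ) (fun j => qm K (u j)) P =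
      qm K (fun ν => eval₂ ((algebraMap k0 K).comp φ) (fun j => u j ν) P) := by
  have h2 := MvPolynomial.eval₂_comp_left (qm K)
    (RingHom.pi (fun _ : ℕ => (algebraMap k0 K).comp φ)) u P
  have h1 : eval₂ ((algebraMap k0 (Om K)).comp φ) (fun j => qm K (u j)) P =
      qm K (eval₂ (RingHom.pi (fun _ : ℕ => (algebraMap k0 K).comp φ)) u P) := by
    rw [h2]
    rfl
  rw [h1]
  congr 1
  funext ν
  exact MvPolynomial.eval₂_comp_left (Pi.evalRingHom (fun _ : ℕ => K) ν)
    (RingHom.pi (fun _ : ℕ => (algebraMap k0 K).comp φ)) u P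

/-- the ambient field -/
noncomputable def amb {ι : Type} (D : DD ι K)
    (hD : ∀ s, ∀ a : k0, D.del s (algebraMap k0 K a) = 0) :
    Amb k0 (Om K) ι where
  KK := KKf k0 K
  EE := EEf k0 K
  ld := ld_om
  D :=
    { a := fun s => cst K (D.a s)
      del := fun s => omD (D.del s)
      one := by
        intro s
        rw [cst_apply, omD_qm, D.one s]
        exact map_one (qm K)
      zero := by
        intro s t h
        rw [cst_apply, omD_qm, D.zero s t h]
        exact map_zero (qm K) }
  a_mem := fun s => mem_KKf.2 ⟨_, rfl⟩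
  del_KK := by
    intro s f hf
    obtain ⟨a, rfl⟩ := mem_KKf.1 hf
    exact mem_KKf.2 ⟨D.del s a, rfl⟩
  del_EE := by
    intro s f hf
    obtain ⟨α, rfl⟩ := mem_EEf.1 hf
    show omD (D.del s) (qm K fun ν => algebraMap k0 K (α ν)) = 0
    rw [omD_qm, qm_zero]
    exact Filter.Eventually.of_forall fun ν => hD s _

end

theorem ultra : UltraS := by
  intro R k0 K _ _ _ _ _ _ ι J _ E φ D hD N r B t θ z hinj hF hbdd
  refine ⟨Om K, inferInstance, inferInstance, amb D hD, fun j => qm K (fun ν => z ν j),
    isAlgClosed_EEf, ?_, ?_, ?_⟩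
  · intro P hP
    have h1 : (Sum.elim (amb D hD).D.a fun j => qm K (fun ν => z ν j)) =
        fun j => qm K ((Sum.elim (fun s _ => D.a s) (fun j ν => z ν j) : ι ⊕ J → ℕ → K) j) := by
      funext j
      cases j with
      | inl s => rfl
      | inr j => rfl
    rw [h1, eval_om, qm_zero]
    refine Filter.Eventually.of_forall fun ν => ?_
    have h2 := hF ν P hP
    have h3 : (fun j => (Sum.elim (fun s _ => D.a s) (fun j ν => z ν j) : ι ⊕ J → ℕ → K) j ν) =
        Sum.elim D.a (z ν) := by
      funext j
      cases j with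
      | inl s => rfl
      | inr j => rfl
    rw [h3]
    exact h2
  · intro j
    exact mem_of_isBdd t θ B _ fun ν => hbdd ν j
  · intro h
    have h1 : ∀ j, ∃ a : K, ∀ᶠ ν in UF, z ν j = a := by
      intro j
      obtain ⟨a, ha⟩ := mem_KKf.1 (h j)
      refine ⟨a, ?_⟩
      have h2 : qm K (fun _ => a) = qm K (fun ν => z ν j) := ha
      rw [qm_eq] at h2
      filter_upwards [h2] with ν hν
      exact hν.symm
    choose a ha using h1
    have h2 : ∀ᶠ ν in UF, z ν = a := by
      have := Filter.eventually_all.2 ha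
      filter_upwards [this] with ν hν
      funext j
      exact hν j
    have h3 : {ν | z ν = a}.Finite := by
      apply Set.Subsingleton.finite
      intro ν hν ν' hν'
      exact hinj (hν.trans hν'.symm)
    exact h3.notMem_hyperfilter h2

end Pool.Agent.Met
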